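import Pool.Agent.H534R3.UD

/-!
# Block frequencies from uniform distribution
-/

set_option autoImplicit false

open MeasureTheory Filter Topology
open scoped Real

namespace Pool.Agent.U157.SUN

open Pool.Agent.H534R3.UDist (UD)

theorem block (b : ℕ) (hb : 2 ≤ b) (k : ℕ) (w : Fin k → ℤ) (hw : ∀ j, 0 ≤ w j ∧ w j < (b : ℤ)) :
    ∃ W : ℤ, 0 ≤ W ∧ W < (b : ℤ) ^ k ∧ ∀ y : ℝ,
      (∀ j : Fin k, ⌊y * (b : ℝ) ^ (j.val + 1)⌋ % (b : ℤ) = w j) ↔
        ⌊Int.fract y * (b : ℝ) ^ k⌋ = W := by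
  have hb0 : (0 : ℤ) < b := by omega
  have hb1 : (0 : ℝ) < b := by exact_mod_cast hb0
  induction k with
  | zero =>
    refine ⟨0, le_rfl, by simp, fun y => ?_⟩
    constructor
    · intro _
      rw [pow_zero, mul_one, Int.floor_eq_zero_iff]
      exact ⟨Int.fract_nonneg y, Int.fract_lt_one y⟩
    · intro _ j
      exact j.elim0
  | succ k ih =>
    obtain ⟨W, hW0, hW1, hW⟩ := ih (fun j => w j.castSucc) (fun j => hw _)
    obtain ⟨hl0, hl1⟩ := hw (Fin.last k)
    refine ⟨W * b + w (Fin.last k), by positivity, ?_, fun y => ?_⟩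
    · rw [pow_succ]
      have : W + 1 ≤ (b : ℤ) ^ k := hW1
      nlinarith
    · rw [Fin.forall_fin_succ']
      have h1 := hW y
      simp only [Fin.val_castSucc, Fin.val_last]
      rw [h1]
      set Q : ℤ := ⌊Int.fract y * (b : ℝ) ^ (k + 1)⌋ with hQ
      have h2 : ⌊y * (b : ℝ) ^ (k + 1)⌋ = (⌊y⌋ * (b : ℤ) ^ k) * b + Q := by
        have h3 : y * (b : ℝ) ^ (k + 1) =
            ((((⌊y⌋ * (b : ℤ) ^ k) * b : ℤ)) : ℝ) + Int.fract y * (b : ℝ) ^ (k + 1) := by
          push_cast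
          have := Int.floor_add_fract y
          calc y * (b : ℝ) ^ (k + 1) = ((⌊y⌋ : ℝ) + Int.fract y) * (b : ℝ) ^ (k + 1) := by rw [this]
            _ = _ := by rw [pow_succ]; ring
        rw [h3, Int.floor_intCast_add]
      have h4 : ⌊y * (b : ℝ) ^ (k + 1)⌋ % (b : ℤ) = Q % b := by
        rw [h2, add_comm, Int.add_mul_emod_self_right]
      rw [h4]
      have h5 : ⌊Int.fract y * (b : ℝ) ^ k⌋ = W ↔ W * b ≤ Q ∧ Q < W * b + b := by
        rw [Int.floor_eq_iff, hQ, Int.le_floor, Int.floor_lt]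
        push_cast
        rw [pow_succ, ← mul_assoc]
        constructor
        · rintro ⟨h6, h7⟩
          constructor
          · exact mul_le_mul_of_nonneg_right h6 hb1.le
          · have := mul_lt_mul_of_pos_right h7 hb1
            linarith
        · rintro ⟨h6, h7⟩
          constructor
          · exact le_of_mul_le_mul_right h6 hb1
          · apply lt_of_mul_lt_mul_right _ hb1.le
            linarith
      rw [h5]
      constructor
      · rintro ⟨⟨h6, h7⟩, h8⟩
        have h9 : Q % b = (Q - W * b) % b := by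
          rw [Int.sub_mul_emod_self_right]
        rw [h9, Int.emod_eq_of_lt (by omega) (by omega)] at h8
        omega
      · intro h6
        refine ⟨⟨by omega, by omega⟩, ?_⟩
        rw [h6, add_comm, Int.add_mul_emod_self_right, Int.emod_eq_of_lt hl0 hl1]

theorem freq {b : ℕ} (hb : 2 ≤ b) {x : ℝ} (hx : UD (fun n : ℕ => (b : ℝ) ^ n * x)) (k : ℕ)
    (w : Fin k → ℤ) (hw : ∀ j : Fin k, 0 ≤ w j ∧ w j < (b : ℤ)) :
    Tendsto (fun N : ℕ => ((((Finset.range N).filter (fun i : ℕ =>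
      ∀ j : Fin k, ⌊x * (b : ℝ) ^ (i + j.val + 1)⌋ % (b : ℤ) = w j)).card : ℝ) / (N : ℝ)))
      atTop (𝓝 (1 / (b : ℝ) ^ k)) := by
  obtain ⟨W, hW0, hW1, hW⟩ := block b hb k w hw
  have hp : (0 : ℝ) < (b : ℝ) ^ k := by
    have : (0 : ℝ) < b := by
      have : 0 < b := by omega
      exact_mod_cast this
    positivity
  have hW0' : (0 : ℝ) ≤ W := by exact_mod_cast hW0
  have hW1' : (W : ℝ) + 1 ≤ (b : ℝ) ^ k := by
    have : W + 1 ≤ (b : ℤ) ^ k := hW1
    exact_mod_cast this
  have h1 := hx (W / (b : ℝ) ^ k) ((W + 1) / (b : ℝ) ^ k) (by positivity)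
    (div_le_div_of_nonneg_right (by linarith) hp.le) ((div_le_one hp).mpr hW1')
  have h2 : ((W : ℝ) + 1) / (b : ℝ) ^ k - W / (b : ℝ) ^ k = 1 / (b : ℝ) ^ k := by
    rw [← sub_div]
    congr 1
    ring
  rw [h2] at h1
  refine h1.congr fun N => ?_
  congr 2
  congr 1
  apply Finset.filter_congr
  intro i _
  have h3 := hW ((b : ℝ) ^ i * x)
  have h4 : (∀ j : Fin k, ⌊x * (b : ℝ) ^ (i + j.val + 1)⌋ % (b : ℤ) = w j) ↔
      (∀ j : Fin k, ⌊(b : ℝ) ^ i * x * (b : ℝ) ^ (j.val + 1)⌋ % (b : ℤ) = w j) := by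
    apply forall_congr'
    intro j
    have : x * (b : ℝ) ^ (i + j.val + 1) = (b : ℝ) ^ i * x * (b : ℝ) ^ (j.val + 1) := by
      rw [add_assoc, pow_add]
      ring
    rw [this]
  rw [h4, h3, Int.floor_eq_iff, div_le_iff₀ hp, lt_div_iff₀ hp]

/-- The absolutely normal numbers. -/
def AN : Set ℝ := {x : ℝ | ∀ b : ℕ, 2 ≤ b → ∀ k : ℕ, ∀ w : Fin k → ℤ,
            (∀ j : Fin k, 0 ≤ w j ∧ w j < (b:ℤ)) →
            Tendsto (fun N : ℕ =>
              ((((Finset.range N).filter (fun i : ℕ =>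
                ∀ j : Fin k, ⌊x * (b:ℝ) ^ (i + j.val + 1)⌋ % (b:ℤ) = w j)).card : ℝ) / (N:ℝ)))
              atTop (𝓝 (1 / (b:ℝ) ^ k))}

theorem measurable_AN : MeasurableSet AN := by
  unfold AN
  simp only [Set.ofPred_forall]
  refine MeasurableSet.iInter fun b => MeasurableSet.iInter fun _ => MeasurableSet.iInter fun k =>
    MeasurableSet.iInter fun w => MeasurableSet.iInter fun _ => ?_
  apply measurableSet_tendsto
  intro N
  apply Measurable.div_const
  simp only [Finset.card_filter]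
  push_cast
  apply Finset.measurable_sum
  intro i _
  apply Measurable.ite _ measurable_const measurable_const
  simp only [Set.ofPred_forall]
  refine MeasurableSet.iInter fun j => ?_
  have hm : Measurable fun x : ℝ => ⌊x * (b : ℝ) ^ (i + j.val + 1)⌋ % (b : ℤ) :=
    (measurable_of_countable (fun n : ℤ => n % (b : ℤ))).comp
      (Int.measurable_floor.comp (measurable_id.mul_const _))
  exact hm (measurableSet_singleton (w j))

end Pool.Agent.U157.SUN
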