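import Pool.Agent.U157.SUN.Norm

/-!
# The choice of the positions and the mass of small intervals
-/

set_option autoImplicit false

open MeasureTheory Filter Topology
open scoped ENNReal Real

namespace Pool.Agent.U157.SUN

theorem choose_z (φ : ℝ → ℝ) (hpos : ∀ r : ℝ, 0 < r → 0 < φ r)
    (hlim : Tendsto (fun r : ℝ => r / φ r) (𝓝[>] (0:ℝ)) (𝓝 0)) :
    ∃ z : ℕ → ℕ, StrictMono z ∧ z 0 = 0 ∧ (∀ k, k ^ 2 ≤ z k) ∧
      ∀ k, 1 ≤ k → ∀ r : ℝ, 0 < r → r ≤ (1 / 2) ^ (z k) → 2 ^ (k + 1) * r ≤ φ r := by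
  have h1 : ∀ k : ℕ, ∃ m : ℕ, ∀ r : ℝ, 0 < r → r ≤ (1 / 2) ^ m → 2 ^ (k + 1) * r ≤ φ r := by
    intro k
    have h2 : ∀ᶠ r in 𝓝[>] (0:ℝ), r / φ r < 1 / 2 ^ (k + 1) :=
      hlim.eventually_lt_const (by positivity)
    rw [eventually_nhdsWithin_iff, Metric.eventually_nhds_iff] at h2
    obtain ⟨δ, hδ, h3⟩ := h2
    obtain ⟨m, hm⟩ := exists_pow_lt_of_lt_one hδ (by norm_num : (1 / 2 : ℝ) < 1)
    refine ⟨m, fun r hr0 hr1 => ?_⟩
    have h4 := h3 (y := r) (by rw [Real.dist_eq, sub_zero, abs_of_pos hr0]; linarith) hr0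
    rw [div_lt_div_iff₀ (hpos r hr0) (by positivity)] at h4
    linarith
  choose f hf using h1
  let z : ℕ → ℕ := fun n => Nat.rec 0 (fun k zk => max (zk + 1) (max ((k + 1) ^ 2) (f (k + 1)))) n
  have hz : ∀ k, z (k + 1) = max (z k + 1) (max ((k + 1) ^ 2) (f (k + 1))) := fun k => rfl
  refine ⟨z, ?_, rfl, ?_, ?_⟩
  · apply strictMono_nat_of_lt_succ
    intro k
    rw [hz]
    exact lt_of_lt_of_le (Nat.lt_succ_self _) (le_max_left _ _)
  · intro k
    cases k with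
    | zero => simp
    | succ k =>
      rw [hz]
      exact (le_max_left _ _).trans (le_max_right _ _)
  · intro k hk r hr0 hr1
    apply hf k r hr0
    refine hr1.trans (pow_le_pow_of_le_one (by norm_num) (by norm_num) ?_)
    obtain ⟨l, rfl⟩ := Nat.exists_eq_add_of_le hk
    rw [add_comm 1 l, hz]
    exact (le_max_right _ _).trans (le_max_right _ _)

variable {q : ℕ → Bool} {z : ℕ → ℕ} (hP : Pos q z)

include hP in
theorem card_free {k j : ℕ} (hj : j ≤ z (k + 1)) :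
    j ≤ ((Finset.range j).filter (fun i => q i = false)).card + (k + 1) := by
  have h1 := Finset.card_filter_add_card_filter_not (s := Finset.range j) (fun i => q i = false)
  rw [Finset.card_range] at h1
  have h2 : ((Finset.range j).filter (fun i => ¬ q i = false)).card ≤ k + 1 := by
    have h3 : (Finset.range j).filter (fun i => ¬ q i = false) ⊆
        (Finset.range (k + 1)).image z := by
      intro i hi
      rw [Finset.mem_filter, Finset.mem_range, Bool.not_eq_false, hP.iff] at hi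
      obtain ⟨h4, l, hl⟩ := hi
      rw [Finset.mem_image]
      refine ⟨l, ?_, hl⟩
      rw [Finset.mem_range]
      apply hP.mono.lt_iff_lt.mp
      omega
    refine (Finset.card_le_card h3).trans (Finset.card_image_le.trans ?_)
    rw [Finset.card_range]
  omega

include hP in
theorem small_interval {φ : ℝ → ℝ}
    (hφ : ∀ k, 1 ≤ k → ∀ r : ℝ, 0 < r → r ≤ (1 / 2) ^ (z k) → 2 ^ (k + 1) * r ≤ φ r)
    {r : ℝ} (hr0 : 0 < r) (hr1 : r ≤ (1 / 2) ^ (z 1 + 1)) (x : ℝ) :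
    Pr {ω | x ≤ X q ω ∧ X q ω ≤ x + r} ≤ ENNReal.ofReal (6 * φ r) := by
  have hr2 : r ≤ 1 := hr1.trans (pow_le_one₀ (by norm_num) (by norm_num))
  obtain ⟨j, hj1, hj2⟩ := exists_nat_pow_near_of_lt_one hr0 hr2 (by norm_num : (0:ℝ) < 1 / 2)
    (by norm_num)
  have hjz : z 1 < j := by
    have h1 : (1 / 2 : ℝ) ^ (j + 1) < (1 / 2) ^ (z 1 + 1) := hj1.trans_le hr1
    have h2 := (pow_lt_pow_iff_right_of_lt_one₀ (by norm_num) (by norm_num)).mp h1
    omega
  -- the block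
  obtain ⟨k, hk1, hk2, hk3⟩ : ∃ k, 1 ≤ k ∧ z k < j ∧ j ≤ z (k + 1) := by
    have h1j : 1 ≤ j := by omega
    refine ⟨Nat.findGreatest (fun k => z k < j) j, ?_, ?_, ?_⟩
    · exact Nat.le_findGreatest h1j hjz
    · exact Nat.findGreatest_spec (P := fun k => z k < j) h1j hjz
    · by_contra hcon
      push Not at hcon
      have h2 : Nat.findGreatest (fun k => z k < j) j + 1 ≤ j := by
        have := hP.mono.id_le (Nat.findGreatest (fun k => z k < j) j + 1)
        simp only [id] at this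
        omega
      have h3 := Nat.le_findGreatest (P := fun k => z k < j) h2 hcon
      omega
  have h4 := card_free hP hk3
  have h5 : Pr {ω | x ≤ X q ω ∧ X q ω ≤ x + r} ≤
      Pr {ω | x ≤ X q ω ∧ X q ω ≤ x + 1 / 2 ^ j} := by
    apply measure_mono
    intro ω hω
    rw [Set.mem_ofPred_eq] at hω ⊢
    refine ⟨hω.1, hω.2.trans ?_⟩
    rw [one_div, inv_pow, ← one_div] at hj2
    linarith
  refine h5.trans ((Pr_interval q j x).trans ?_)
  have h6 : (2⁻¹ : ℝ≥0∞) ^ ((Finset.range j).filter (fun i => q i = false)).card ≤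
      (2⁻¹ : ℝ≥0∞) ^ (j - (k + 1)) := by
    apply pow_le_pow_of_le_one zero_le
    · rw [ENNReal.inv_le_one]
      exact one_le_two
    · omega
  refine (mul_le_mul_right h6 3).trans ?_
  have h7 : (3 : ℝ≥0∞) * (2⁻¹ : ℝ≥0∞) ^ (j - (k + 1)) =
      ENNReal.ofReal (3 * (1 / 2) ^ (j - (k + 1))) := by
    rw [ENNReal.ofReal_mul (by norm_num), ENNReal.ofReal_pow (by norm_num)]
    congr 1
    · simp
    · congr 1
      rw [one_div, ENNReal.ofReal_inv_of_pos (by norm_num)]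
      simp
  rw [h7]
  apply ENNReal.ofReal_le_ofReal
  have hkj : k + 1 ≤ j := by
    have := hP.mono.id_le k
    simp only [id] at this
    omega
  have h8 : (1 / 2 : ℝ) ^ (j - (k + 1)) = 2 ^ (k + 1) * (1 / 2) ^ j := by
    have h9 : (1 / 2 : ℝ) ^ j = (1 / 2) ^ (j - (k + 1)) * (1 / 2) ^ (k + 1) := by
      rw [← pow_add, Nat.sub_add_cancel hkj]
    rw [h9]
    have h10 : (2 : ℝ) ^ (k + 1) * (1 / 2) ^ (k + 1) = 1 := by
      rw [← mul_pow]
      norm_num
    calc (1 / 2 : ℝ) ^ (j - (k + 1)) = (1 / 2 : ℝ) ^ (j - (k + 1)) * 1 := (mul_one _).symm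
      _ = (1 / 2 : ℝ) ^ (j - (k + 1)) * (2 ^ (k + 1) * (1 / 2) ^ (k + 1)) := by rw [h10]
      _ = _ := by ring
  rw [h8]
  have h11 : (1 / 2 : ℝ) ^ j ≤ 2 * r := by
    rw [pow_succ] at hj1
    linarith
  have h12 := hφ k hk1 r hr0 (hj2.trans (pow_le_pow_of_le_one (by norm_num) (by norm_num) hk2.le))
  have h13 : (0 : ℝ) < 2 ^ (k + 1) := by positivity
  nlinarith

end Pool.Agent.U157.SUN
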