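import Pool.Agent.U157.SUN.Ae
import Pool.Agent.U157.SUN.Dig
import Pool.Agent.U157.SUN.Gauge
import Pool.Agent.Y249.SU.Bump

/-!
# The closed set, and the end of the proof
-/

set_option autoImplicit false

open MeasureTheory Filter Topology
open scoped ENNReal Real

namespace Pool.Agent.U157.SUN

open Pool.Agent.H534R3.UDist (UD)

/-- The closed set: the binary digits at the positions `z k` vanish. -/
def KZ (z : ℕ → ℕ) : Set ℝ := Set.Icc 0 1 ∩
  ⋂ k : ℕ, ⋃ l ∈ Finset.range (2 ^ z k), {x : ℝ | (l : ℝ) ≤ 2 ^ z k * x ∧ 2 ^ z k * x ≤ l + 1 / 2}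

theorem isClosed_KZ (z : ℕ → ℕ) : IsClosed (KZ z) := by
  refine isClosed_Icc.inter (isClosed_iInter fun k => ?_)
  apply isClosed_biUnion_finset
  intro l _
  exact (isClosed_le continuous_const (continuous_const.mul continuous_id)).inter
    (isClosed_le (continuous_const.mul continuous_id) continuous_const)

theorem KZ_sub (z : ℕ → ℕ) : KZ z ⊆ Set.Icc 0 1 := Set.inter_subset_left

theorem mem_KZ {z : ℕ → ℕ} {x : ℝ} (hx : x ∈ KZ z) (k : ℕ) :
    ∃ l : ℕ, (l : ℝ) ≤ 2 ^ z k * x ∧ 2 ^ z k * x ≤ l + 1 / 2 := by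
  have h := Set.mem_iInter.mp hx.2 k
  simp only [Set.mem_iUnion, Set.mem_ofPred_eq] at h
  obtain ⟨l, _, h1, h2⟩ := h
  exact ⟨l, h1, h2⟩

theorem KZ_half {z : ℕ → ℕ} (hz : z 0 = 0) {x : ℝ} (hx : x ∈ KZ z) : x ≤ 1 / 2 := by
  have h := Set.mem_iInter.mp hx.2 0
  simp only [Set.mem_iUnion, Set.mem_ofPred_eq, hz, pow_zero, Finset.mem_range, one_mul] at h
  obtain ⟨l, h0, h1, h2⟩ := h
  have : l = 0 := by omega
  subst this
  simpa using h2

variable {q : ℕ → Bool} {z : ℕ → ℕ} (hP : Pos q z)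

include hP in
theorem X_mem (ω : ℕ → Bool) : X q ω ∈ KZ z := by
  refine ⟨⟨?_, ?_⟩, Set.mem_iInter.mpr fun k => ?_⟩
  · have := Dg_le_X q ω 0
    simpa [Dg] using this
  · have := X_le_Dg q ω 0
    simpa [Dg] using this
  · simp only [Set.mem_iUnion, Set.mem_ofPred_eq]
    refine ⟨Dg q ω (z k), ?_, Dg_le_X q ω (z k), X_le_Dg' q ω ((hP.iff _).mpr ⟨k, rfl⟩)⟩
    rw [Finset.mem_range]
    exact Dg_lt q ω (z k)

theorem lam_periodic (γ : ℤ → ℂ) (x : ℝ) (m : ℤ) :
    Pool.Agent.Y249.SU.lam γ (x + m) = Pool.Agent.Y249.SU.lam γ x := by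
  unfold Pool.Agent.Y249.SU.lam
  congr 1
  ext j
  have : Pool.Agent.Y249.SU.E j (m : ℝ) = 1 := by
    rw [Pool.Agent.Y249.SU.E]
    have : (2 * (Real.pi : ℂ) * Complex.I * (j : ℂ) * ((m : ℝ) : ℂ)) =
        ((j * m : ℤ) : ℂ) * (2 * Real.pi * Complex.I) := by
      push_cast
      ring
    rw [this, Complex.exp_int_mul_two_pi_mul_I]
  rw [Pool.Agent.Y249.SU.E_add, this, mul_one]

/-- The set is a set of uniqueness. -/
theorem uniq {z : ℕ → ℕ} (hmono : StrictMono z) (hz : z 0 = 0) (c : ℤ → ℂ)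
    (hc : ∀ x : ℝ, (∀ m : ℤ, x + (m:ℝ) ∉ KZ z) →
      Tendsto (fun N : ℕ => ∑ n ∈ Finset.Icc (-(N:ℤ)) (N:ℤ),
        c n * Complex.exp (2 * (Real.pi:ℂ) * Complex.I * (n:ℂ) * (x:ℂ))) atTop (𝓝 0)) (n : ℤ) :
    c n = 0 := by
  obtain ⟨γ, hγ, hγ0, hγz⟩ := Pool.Agent.Y249.SU.exists_gamma
  refine Pool.Agent.Y249.SU.uniqueness (K := KZ z) (M := fun k => (2 : ℤ) ^ z k) ?_ hγ hγ0 ?_
    (a := 1 / 2) (b := 1) (by norm_num) ?_ (c := c) ?_ n
  · exact (tendsto_pow_atTop_atTop_of_one_lt (by norm_num)).comp hmono.tendsto_atTop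
  · intro x hx k
    obtain ⟨l, h1, h2⟩ := mem_KZ hx k
    have h3 : (((2 : ℤ) ^ z k : ℤ) : ℝ) * x = (2 ^ z k * x - l) + ((l : ℤ) : ℝ) := by
      push_cast
      ring
    rw [h3, lam_periodic]
    exact hγz _ ⟨by linarith, by linarith⟩
  · intro x hx m hm
    have h1 := (KZ_sub z hm).1
    have h2 := KZ_half hz hm
    have h3 := hx.1
    have h4 := hx.2
    have h5 : (-1 : ℝ) < m := by linarith
    have h6 : (m : ℝ) < 0 := by linarith
    have h7 : -1 < m := by exact_mod_cast h5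
    have h8 : m < 0 := by exact_mod_cast h6
    omega
  · intro x hx
    exact hc x hx

include hP in
theorem positive {φ : ℝ → ℝ} (hlim : Tendsto φ (𝓝[>] (0:ℝ)) (𝓝 0))
    (hφ : ∀ k, 1 ≤ k → ∀ r : ℝ, 0 < r → r ≤ (1 / 2) ^ (z k) → 2 ^ (k + 1) * r ≤ φ r) :
    0 < Measure.mkMetric (fun r : ℝ≥0∞ => ENNReal.ofReal (φ r.toReal)) (KZ z ∩ AN) := by
  set μ : Measure ℝ := Pr.map (X q) with hμ
  have hXm := measurable_X q
  have hIcc : ∀ (r : ℝ), 0 < r → r ≤ (1 / 2) ^ (z 1 + 1) → ∀ x : ℝ,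
      μ (Set.Icc x (x + r)) ≤ ENNReal.ofReal (6 * φ r) := by
    intro r hr0 hr1 x
    rw [hμ, Measure.map_apply hXm measurableSet_Icc]
    exact small_interval hP hφ hr0 hr1 x
  set ε : ℝ := (1 / 2) ^ (z 1 + 1) with hε
  have hε0 : 0 < ε := by positivity
  have hpt : ∀ x : ℝ, μ {x} = 0 := by
    intro x
    have h1 : Tendsto (fun r => ENNReal.ofReal (6 * φ r)) (𝓝[>] (0:ℝ)) (𝓝 0) := by
      have h2 := ENNReal.tendsto_ofReal (hlim.const_mul 6)
      rw [mul_zero, ENNReal.ofReal_zero] at h2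
      exact h2
    have h3 : ∀ᶠ r in 𝓝[>] (0:ℝ), μ {x} ≤ ENNReal.ofReal (6 * φ r) := by
      filter_upwards [Ioc_mem_nhdsGT hε0] with r hr
      refine (measure_mono ?_).trans (hIcc r hr.1 hr.2 x)
      intro y hy
      rw [Set.mem_singleton_iff] at hy
      subst hy
      exact ⟨le_rfl, by linarith [hr.1]⟩
    exact le_antisymm (ge_of_tendsto h1 h3) zero_le
  have hbound : ∀ s : Set ℝ, Metric.ediam s ≤ ENNReal.ofReal ε →
      μ s ≤ ENNReal.ofReal (6 * φ (Metric.ediam s).toReal) := by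
    intro s hs
    have hfin : Metric.ediam s ≠ ∞ := ne_top_of_le_ne_top ENNReal.ofReal_ne_top hs
    by_cases h0 : Metric.ediam s = 0
    · have hsub := Metric.ediam_eq_zero_iff.mp h0
      have : μ s = 0 := by
        rcases hsub.eq_empty_or_singleton with h | ⟨x, h⟩
        · rw [h, measure_empty]
        · rw [h]
          exact hpt x
      rw [this]
      exact zero_le
    · have hr0 : 0 < (Metric.ediam s).toReal := ENNReal.toReal_pos h0 hfin
      have hr1 : (Metric.ediam s).toReal ≤ ε := by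
        have := (ENNReal.toReal_le_toReal hfin ENNReal.ofReal_ne_top).mpr hs
        rwa [ENNReal.toReal_ofReal hε0.le] at this
      refine le_trans (measure_mono ?_) (hIcc _ hr0 hr1 (sInf s))
      intro y hy
      have hdist : ∀ u ∈ s, ∀ v ∈ s, |u - v| ≤ (Metric.ediam s).toReal := by
        intro u hu v hv
        have h1 := Metric.edist_le_ediam_of_mem hu hv
        rw [← Real.dist_eq, ← ENNReal.ofReal_le_iff_le_toReal hfin, ← edist_dist]
        exact h1
      have hbdd : BddBelow s := by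
        refine ⟨y - (Metric.ediam s).toReal, fun v hv => ?_⟩
        have := (abs_le.mp (hdist y hy v hv)).2
        linarith
      refine ⟨csInf_le hbdd hy, ?_⟩
      have h2 : y - (Metric.ediam s).toReal ≤ sInf s := by
        apply le_csInf ⟨y, hy⟩
        intro v hv
        have := (abs_le.mp (hdist y hy v hv)).2
        linarith
      linarith
  set ν : Measure ℝ := (6⁻¹ : ℝ≥0∞) • μ with hν
  have hle : ν ≤ Measure.mkMetric (fun r : ℝ≥0∞ => ENNReal.ofReal (φ r.toReal)) := by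
    apply Measure.le_mkMetric _ ν (ENNReal.ofReal ε) (ENNReal.ofReal_pos.mpr hε0)
    intro s hs
    rw [hν, Measure.smul_apply, smul_eq_mul]
    have h1 := mul_le_mul_right (hbound s hs) (6⁻¹ : ℝ≥0∞)
    refine h1.trans (le_of_eq ?_)
    rw [ENNReal.ofReal_mul (by norm_num), ← mul_assoc]
    have h2 : (6⁻¹ : ℝ≥0∞) * ENNReal.ofReal 6 = 1 := by
      have : ENNReal.ofReal 6 = 6 := by simp
      rw [this]
      exact ENNReal.inv_mul_cancel (by norm_num) (by norm_num)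
    rw [h2, one_mul]
  refine lt_of_lt_of_le ?_ (hle _)
  rw [hν, Measure.smul_apply, smul_eq_mul, hμ,
    Measure.map_apply hXm ((isClosed_KZ z).measurableSet.inter measurable_AN)]
  have h1 : Pr (X q ⁻¹' (KZ z ∩ AN)) = 1 := by
    rw [← mem_ae_iff_prob_eq_one
      (hXm ((isClosed_KZ z).measurableSet.inter measurable_AN))]
    filter_upwards [ae_ud hP] with ω hω
    exact ⟨X_mem hP ω, fun b hb k w hw => freq hb (hω b hb) k w hw⟩
  rw [h1, mul_one]
  simp

end Pool.Agent.U157.SUN
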