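import Pool.Agent.U157.SUN.Norm

/-!
# The random number is absolutely normal almost surely: the end of the proof
-/

set_option autoImplicit false

open MeasureTheory Filter Topology
open scoped ENNReal Real

namespace Pool.Agent.U157.SUN

open Pool.Agent.H534R3.UDist (ee norm_ee Weyl UD ud_of_weyl)

variable {q : ℕ → Bool} {z : ℕ → ℕ} (hP : Pos q z)

include hP in
theorem moment_quartic {h b : ℕ} (hh : 1 ≤ h) (hb : 2 ≤ b) :
    ∃ C : ℝ, 0 ≤ C ∧ ∀ j : ℕ, ∫ ω, ‖SS q h b ((j + 1) ^ 4) ω‖ ^ 2 / ((j + 1 : ℕ) : ℝ) ^ 8 ∂Pr ≤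
      C * (1 / ((j + 1 : ℕ) : ℝ) ^ 2) := by
  refine ⟨1 + 8 * b * (2 + h + b), by positivity, fun j => ?_⟩
  have h1 := second_moment hP hh hb ((j + 1) ^ 4)
  have h2 := KK_le h b (j + 1) (by omega)
  have h3 : (KK h b ((j + 1) ^ 4) : ℝ) ≤ (2 + h + b) * ((j + 1 : ℕ) : ℝ) ^ 2 := by
    exact_mod_cast h2
  rw [integral_div]
  set J : ℝ := ((j + 1 : ℕ) : ℝ) with hJ
  have hJ1 : (1 : ℝ) ≤ J := by
    rw [hJ]
    exact_mod_cast Nat.le_add_left 1 j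
  have hc : (((j + 1) ^ 4 : ℕ) : ℝ) = J ^ 4 := by
    rw [hJ]
    push_cast
    ring
  rw [hc] at h1
  rw [div_le_iff₀ (by positivity)]
  have h4 : (1 + 8 * (b : ℝ) * (2 + h + b)) * (1 / J ^ 2) * J ^ 8 =
      (1 + 8 * (b : ℝ) * (2 + h + b)) * J ^ 6 := by
    field_simp
  rw [h4]
  refine h1.trans ?_
  have h5 : 2 * J ^ 4 * ((KK h b ((j + 1) ^ 4) : ℝ) * (4 * b)) ≤
      2 * J ^ 4 * (((2 + h + b) * J ^ 2) * (4 * b)) := by
    apply mul_le_mul_of_nonneg_left _ (by positivity)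
    exact mul_le_mul_of_nonneg_right h3 (by positivity)
  have h6 : J ^ 4 ≤ J ^ 6 := pow_le_pow_right₀ hJ1 (by norm_num)
  have h7 : 2 * J ^ 4 * (((2 + (h : ℝ) + b) * J ^ 2) * (4 * b)) = 8 * b * (2 + h + b) * J ^ 6 := by
    ring
  linarith

include hP in
theorem ae_quartic {h b : ℕ} (hh : 1 ≤ h) (hb : 2 ≤ b) :
    ∀ᵐ ω ∂Pr, Tendsto (fun j : ℕ => ‖SS q h b ((j + 1) ^ 4) ω‖ / ((j + 1 : ℕ) : ℝ) ^ 4) atTop
      (𝓝 0) := by
  obtain ⟨C, hC, hbd⟩ := moment_quartic hP hh hb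
  set g : ℕ → (ℕ → Bool) → ℝ := fun j ω => ‖SS q h b ((j + 1) ^ 4) ω‖ ^ 2 / ((j + 1 : ℕ) : ℝ) ^ 8
    with hg
  have hg0 : ∀ j ω, 0 ≤ g j ω := fun j ω => by positivity
  have hgm : ∀ j, Measurable (g j) := fun j =>
    ((measurable_SS q h b _).norm.pow_const 2).div_const _
  have hgi : ∀ j, Integrable (g j) Pr := by
    intro j
    apply Integrable.of_bound (hgm j).aestronglyMeasurable
      (((((j + 1) ^ 4 : ℕ) : ℝ)) ^ 2 / ((j + 1 : ℕ) : ℝ) ^ 8)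
    refine ae_of_all _ fun ω => ?_
    rw [Real.norm_eq_abs, abs_of_nonneg (hg0 j ω)]
    simp only [hg]
    apply div_le_div_of_nonneg_right _ (by positivity)
    exact pow_le_pow_left₀ (norm_nonneg _) (norm_SS_le q h b _ ω) 2
  have hsum : Summable fun j : ℕ => C * (1 / ((j + 1 : ℕ) : ℝ) ^ 2) := by
    apply Summable.mul_left
    have := (summable_nat_add_iff 1).mpr (Real.summable_one_div_nat_pow.mpr one_lt_two)
    exact this
  have h1 : ∫⁻ ω, ∑' j, ENNReal.ofReal (g j ω) ∂Pr ≠ ∞ := by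
    rw [lintegral_tsum fun j => ((hgm j).ennreal_ofReal).aemeasurable]
    have h2 : ∑' j, ∫⁻ ω, ENNReal.ofReal (g j ω) ∂Pr ≤
        ∑' j : ℕ, ENNReal.ofReal (C * (1 / ((j + 1 : ℕ) : ℝ) ^ 2)) := by
      apply ENNReal.tsum_le_tsum
      intro j
      rw [← ofReal_integral_eq_lintegral_ofReal (hgi j) (ae_of_all _ (hg0 j))]
      exact ENNReal.ofReal_le_ofReal (hbd j)
    refine ne_top_of_le_ne_top ?_ h2
    rw [← ENNReal.ofReal_tsum_of_nonneg (fun j => by positivity) hsum]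
    exact ENNReal.ofReal_ne_top
  have h3 := ae_lt_top (Measurable.tsum fun j => (hgm j).ennreal_ofReal) h1
  filter_upwards [h3] with ω hω
  have h4 := ENNReal.tendsto_atTop_zero_of_tsum_ne_top hω.ne
  have h5 : Tendsto (fun j => g j ω) atTop (𝓝 0) := by
    have h6 := (ENNReal.tendsto_toReal ENNReal.zero_ne_top).comp h4
    rw [ENNReal.toReal_zero] at h6
    refine h6.congr fun j => ?_
    simp only [Function.comp_apply]
    exact ENNReal.toReal_ofReal (hg0 j ω)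
  have h6 := (Real.continuous_sqrt.tendsto 0).comp h5
  rw [Real.sqrt_zero] at h6
  refine h6.congr fun j => ?_
  simp only [Function.comp_apply, hg]
  have h7 : ‖SS q h b ((j + 1) ^ 4) ω‖ ^ 2 / ((j + 1 : ℕ) : ℝ) ^ 8 =
      (‖SS q h b ((j + 1) ^ 4) ω‖ / ((j + 1 : ℕ) : ℝ) ^ 4) ^ 2 := by
    rw [div_pow, ← pow_mul]
  rw [h7, Real.sqrt_sq (by positivity)]

theorem norm_SS_add (q : ℕ → Bool) (h b M N : ℕ) (hMN : M ≤ N) (ω : ℕ → Bool) :
    ‖SS q h b N ω‖ ≤ ‖SS q h b M ω‖ + (N - M) := by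
  obtain ⟨k, rfl⟩ := Nat.exists_eq_add_of_le hMN
  rw [SS, Finset.sum_range_add]
  refine (norm_add_le _ _).trans ?_
  rw [← SS]
  have : ‖∑ x ∈ Finset.range k, ee ((h : ℝ) * ((b : ℝ) ^ (M + x) * X q ω))‖ ≤ k := by
    refine (norm_sum_le _ _).trans ?_
    simp [norm_ee]
  push_cast
  linarith

theorem interpolate (q : ℕ → Bool) (h b : ℕ) (ω : ℕ → Bool)
    (hj : Tendsto (fun j : ℕ => ‖SS q h b ((j + 1) ^ 4) ω‖ / ((j + 1 : ℕ) : ℝ) ^ 4) atTop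
      (𝓝 0)) :
    Tendsto (fun N : ℕ => ‖SS q h b N ω‖ / N) atTop (𝓝 0) := by
  have hsq : Tendsto Nat.sqrt atTop atTop := by
    apply tendsto_atTop_atTop.mpr
    intro b
    refine ⟨b * b, fun a ha => ?_⟩
    rw [Nat.le_sqrt]
    exact ha
  have hj2 : Tendsto (fun N : ℕ => Nat.sqrt (Nat.sqrt N) - 1) atTop atTop :=
    (tendsto_sub_atTop_nat 1).comp (hsq.comp hsq)
  have h15 : Tendsto (fun j : ℕ => 15 / ((j + 1 : ℕ) : ℝ)) atTop (𝓝 0) := by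
    have := (tendsto_const_div_atTop_nhds_zero_nat (15 : ℝ))
    exact (tendsto_add_atTop_iff_nat 1).mpr this
  have hsum := (hj.add h15).comp hj2
  rw [add_zero] at hsum
  refine squeeze_zero' (Eventually.of_forall fun N => by positivity) ?_ hsum
  filter_upwards [eventually_ge_atTop 1] with N hN
  set j := Nat.sqrt (Nat.sqrt N) with hjdef
  have hj1 : 1 ≤ j := by
    rw [hjdef, Nat.le_sqrt, Nat.le_sqrt]
    exact hN
  simp only [Function.comp_apply]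
  rw [Nat.sub_add_cancel hj1]
  have hlow : j ^ 4 ≤ N := by
    have h1 := Nat.sqrt_le' (Nat.sqrt N)
    have h2 := Nat.sqrt_le' N
    rw [← hjdef] at h1
    calc j ^ 4 = (j ^ 2) ^ 2 := by ring
      _ ≤ (Nat.sqrt N) ^ 2 := Nat.pow_le_pow_left h1 2
      _ ≤ N := h2
  have hupp : N ≤ (j + 1) ^ 4 := by
    have h1 := Nat.succ_le_succ_sqrt' (Nat.sqrt N)
    have h2 := Nat.succ_le_succ_sqrt' N
    rw [← hjdef] at h1
    calc N ≤ (Nat.sqrt N + 1) ^ 2 := by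
            exact (Nat.le_succ N).trans h2
      _ ≤ ((j + 1) ^ 2) ^ 2 := by
            apply Nat.pow_le_pow_left
            exact h1
      _ = (j + 1) ^ 4 := by ring
  have hJ : (1 : ℝ) ≤ j := by exact_mod_cast hj1
  have hJN : (j : ℝ) ^ 4 ≤ N := by exact_mod_cast hlow
  have hNJ : (N : ℝ) ≤ (j + 1) ^ 4 := by exact_mod_cast hupp
  have h3 := norm_SS_add q h b (j ^ 4) N hlow ω
  have h4 : ‖SS q h b N ω‖ ≤ ‖SS q h b (j ^ 4) ω‖ + 15 * (j : ℝ) ^ 3 := by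
    refine h3.trans ?_
    push_cast
    have h5 : ((j : ℝ) + 1) ^ 4 = j ^ 4 + (4 * j ^ 3 + 6 * j ^ 2 + 4 * j + 1) := by ring
    have h6 : (j : ℝ) ^ 2 ≤ j ^ 3 := pow_le_pow_right₀ hJ (by norm_num)
    have h7 : (j : ℝ) ≤ j ^ 3 := by
      calc (j : ℝ) = j ^ 1 := (pow_one _).symm
        _ ≤ j ^ 3 := pow_le_pow_right₀ hJ (by norm_num)
    have h8 : (1 : ℝ) ≤ j ^ 3 := one_le_pow₀ hJ
    linarith
  calc ‖SS q h b N ω‖ / N ≤ (‖SS q h b (j ^ 4) ω‖ + 15 * (j : ℝ) ^ 3) / N :=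
        div_le_div_of_nonneg_right h4 (by positivity)
    _ ≤ (‖SS q h b (j ^ 4) ω‖ + 15 * (j : ℝ) ^ 3) / (j : ℝ) ^ 4 :=
        div_le_div_of_nonneg_left (by positivity) (by positivity) hJN
    _ = ‖SS q h b (j ^ 4) ω‖ / (j : ℝ) ^ 4 + 15 / j := by
        field_simp

include hP in
/-- Almost surely the random number is normal in all bases. -/
theorem ae_ud : ∀ᵐ ω ∂Pr, ∀ b : ℕ, 2 ≤ b → UD (fun n : ℕ => (b : ℝ) ^ n * X q ω) := by
  have h1 : ∀ᵐ ω ∂Pr, ∀ b : ℕ, ∀ h : ℕ, 2 ≤ b → 1 ≤ h →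
      Tendsto (fun j : ℕ => ‖SS q h b ((j + 1) ^ 4) ω‖ / ((j + 1 : ℕ) : ℝ) ^ 4) atTop (𝓝 0) := by
    rw [ae_all_iff]
    intro b
    rw [ae_all_iff]
    intro h
    by_cases hb : 2 ≤ b
    · by_cases hh : 1 ≤ h
      · filter_upwards [ae_quartic hP hh hb] with ω hω _ _
        exact hω
      · exact ae_of_all _ fun ω _ h2 => absurd h2 hh
    · exact ae_of_all _ fun ω h2 => absurd h2 hb
  filter_upwards [h1] with ω hω b hb
  apply ud_of_weyl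
  intro h hh
  have := interpolate q h b ω (hω b h hb hh)
  unfold SS at this
  exact this

end Pool.Agent.U157.SUN
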