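import Mathlib
import Pool.Agent.H534R3.UD

/-!
# A random number with independent binary digits, some of which are forced to vanish
-/

set_option autoImplicit false

open MeasureTheory Filter Topology
open scoped ENNReal Real

namespace Pool.Agent.U157.SUN

open Pool.Agent.H534R3.UDist (ee norm_ee)

/-- The fair coin. -/
noncomputable def coin : Measure Bool :=
  (2⁻¹ : ℝ≥0∞) • (Measure.dirac true + Measure.dirac false)

instance : IsProbabilityMeasure coin := by
  constructor
  simp only [coin, Measure.smul_apply, Measure.add_apply, measure_univ, smul_eq_mul]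
  rw [one_add_one_eq_two]
  exact ENNReal.inv_mul_cancel (by norm_num) (by norm_num)

theorem coin_singleton (c : Bool) : coin {c} = 2⁻¹ := by
  cases c <;> simp [coin]

theorem integral_coin (f : Bool → ℂ) : ∫ c, f c ∂coin = (f true + f false) / 2 := by
  have hi : ∀ b : Bool, Integrable f (Measure.dirac b) := fun b =>
    integrable_dirac (by simp)
  rw [coin, integral_smul_measure, integral_add_measure (hi _) (hi _), integral_dirac,
    integral_dirac]
  simp only [ENNReal.toReal_inv, ENNReal.toReal_ofNat]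
  rw [Complex.real_smul]
  push_cast
  ring

/-- The product measure. -/
noncomputable def Pr : Measure (ℕ → Bool) := Measure.infinitePi (fun _ : ℕ => coin)

instance : IsProbabilityMeasure Pr := by
  unfold Pr
  infer_instance

variable (q : ℕ → Bool)

/-- The `i`-th digit; the digits with `q i = true` vanish. -/
def dg (ω : ℕ → Bool) (i : ℕ) : ℕ := if q i then 0 else (ω i).toNat

theorem dg_le (ω : ℕ → Bool) (i : ℕ) : dg q ω i ≤ 1 := by
  unfold dg
  split_ifs
  · exact Nat.zero_le _
  · exact Bool.toNat_le _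

/-- The integer formed by the first `j` digits. -/
def Dg (ω : ℕ → Bool) : ℕ → ℕ
  | 0 => 0
  | j + 1 => 2 * Dg ω j + dg q ω j

theorem Dg_succ (ω : ℕ → Bool) (j : ℕ) : Dg q ω (j + 1) = 2 * Dg q ω j + dg q ω j := rfl

theorem Dg_lt (ω : ℕ → Bool) (j : ℕ) : Dg q ω j < 2 ^ j := by
  induction j with
  | zero => simp [Dg]
  | succ j ih =>
    rw [Dg_succ, pow_succ]
    have := dg_le q ω j
    omega

theorem Dg_mono (ω : ℕ → Bool) (j n : ℕ) : Dg q ω j * 2 ^ n ≤ Dg q ω (j + n) := by
  induction n with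
  | zero => simp
  | succ n ih =>
    rw [← add_assoc, Dg_succ, pow_succ]
    have := dg_le q ω (j + n)
    nlinarith

theorem Dg_anti (ω : ℕ → Bool) (j n : ℕ) : Dg q ω (j + n) + 1 ≤ (Dg q ω j + 1) * 2 ^ n := by
  induction n with
  | zero => simp
  | succ n ih =>
    rw [← add_assoc, Dg_succ, pow_succ]
    have := dg_le q ω (j + n)
    nlinarith

/-- The random number. -/
noncomputable def X (ω : ℕ → Bool) : ℝ := ∑' i : ℕ, (dg q ω i : ℝ) * (1 / 2) ^ (i + 1)

theorem sum_dg (ω : ℕ → Bool) (j : ℕ) :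
    ∑ i ∈ Finset.range j, (dg q ω i : ℝ) * (1 / 2) ^ (i + 1) = (Dg q ω j : ℝ) / 2 ^ j := by
  induction j with
  | zero => simp [Dg]
  | succ j ih =>
    rw [Finset.sum_range_succ, ih, Dg_succ]
    push_cast
    rw [one_div, inv_pow, pow_succ]
    field_simp

theorem summable_dg (ω : ℕ → Bool) : Summable fun i : ℕ => (dg q ω i : ℝ) * (1 / 2) ^ (i + 1) := by
  have h : Summable fun i : ℕ => (1 / 2 : ℝ) ^ (i + 1) :=
    (summable_nat_add_iff 1).mpr (summable_geometric_of_lt_one (by norm_num) (by norm_num))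
  refine Summable.of_nonneg_of_le (fun i => by positivity) (fun i => ?_) h
  have : (dg q ω i : ℝ) ≤ 1 := by exact_mod_cast dg_le q ω i
  have h2 : (0 : ℝ) ≤ (1 / 2) ^ (i + 1) := by positivity
  nlinarith

theorem tendsto_Dg (ω : ℕ → Bool) :
    Tendsto (fun n : ℕ => (Dg q ω n : ℝ) / 2 ^ n) atTop (𝓝 (X q ω)) := by
  have := (summable_dg q ω).hasSum.tendsto_sum_nat
  simp only [sum_dg] at this
  exact this

theorem Dg_le_X (ω : ℕ → Bool) (j : ℕ) : (Dg q ω j : ℝ) ≤ 2 ^ j * X q ω := by
  have h : (Dg q ω j : ℝ) / 2 ^ j ≤ X q ω := by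
    apply ge_of_tendsto (tendsto_Dg q ω)
    filter_upwards [eventually_ge_atTop j] with n hn
    obtain ⟨k, rfl⟩ := Nat.exists_eq_add_of_le hn
    rw [div_le_div_iff₀ (by positivity) (by positivity), pow_add]
    have := Dg_mono q ω j k
    have h2 : (Dg q ω j : ℝ) * 2 ^ k ≤ Dg q ω (j + k) := by exact_mod_cast this
    have h3 : (0 : ℝ) < 2 ^ j := by positivity
    nlinarith
  rw [div_le_iff₀ (by positivity)] at h
  linarith

theorem X_le_Dg (ω : ℕ → Bool) (j : ℕ) : 2 ^ j * X q ω ≤ (Dg q ω j : ℝ) + 1 := by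
  have h : X q ω ≤ ((Dg q ω j : ℝ) + 1) / 2 ^ j := by
    apply le_of_tendsto (tendsto_Dg q ω)
    filter_upwards [eventually_ge_atTop j] with n hn
    obtain ⟨k, rfl⟩ := Nat.exists_eq_add_of_le hn
    rw [div_le_div_iff₀ (by positivity) (by positivity), pow_add]
    have := Dg_anti q ω j k
    have h2 : (Dg q ω (j + k) : ℝ) + 1 ≤ (Dg q ω j + 1) * 2 ^ k := by exact_mod_cast this
    have h3 : (0 : ℝ) < 2 ^ j := by positivity
    nlinarith
  rw [le_div_iff₀ (by positivity)] at h
  linarith

theorem X_le_Dg' (ω : ℕ → Bool) {j : ℕ} (hj : q j = true) :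
    2 ^ j * X q ω ≤ (Dg q ω j : ℝ) + 1 / 2 := by
  have h := X_le_Dg q ω (j + 1)
  have h2 : dg q ω j = 0 := by simp [dg, hj]
  rw [Dg_succ, h2, pow_succ] at h
  push_cast at h
  linarith

theorem measurable_dg (i : ℕ) : Measurable fun ω : ℕ → Bool => dg q ω i := by
  unfold dg
  split_ifs
  · exact measurable_const
  · exact (measurable_of_countable (fun c : Bool => c.toNat)).comp (measurable_pi_apply i)

theorem measurable_Dg (j : ℕ) : Measurable fun ω : ℕ → Bool => Dg q ω j := by
  induction j with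
  | zero => exact measurable_const
  | succ j ih =>
    simp only [Dg_succ]
    exact (ih.const_mul 2).add (measurable_dg q j)

theorem measurable_X : Measurable (X q) := by
  apply measurable_of_tendsto_metrizable
    (f := fun n ω => (Dg q ω n : ℝ) / 2 ^ n) _ (tendsto_pi_nhds.mpr fun ω => tendsto_Dg q ω)
  intro n
  exact ((measurable_of_countable (fun m : ℕ => (m : ℝ))).comp (measurable_Dg q n)).div_const _

/-! ### Small balls -/

theorem Dg_inj {ω ω' : ℕ → Bool} {j : ℕ} (h : Dg q ω j = Dg q ω' j) :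
    ∀ i < j, dg q ω i = dg q ω' i := by
  induction j with
  | zero => intro i hi; omega
  | succ j ih =>
    rw [Dg_succ, Dg_succ] at h
    have h1 := dg_le q ω j
    have h2 := dg_le q ω' j
    have h3 : dg q ω j = dg q ω' j := by omega
    have h4 : Dg q ω j = Dg q ω' j := by omega
    intro i hi
    rcases Nat.lt_succ_iff_lt_or_eq.mp hi with h5 | h5
    · exact ih h4 i h5
    · subst h5
      exact h3

theorem Pr_Dg (j v : ℕ) : Pr {ω | Dg q ω j = v} ≤
    (2⁻¹ : ℝ≥0∞) ^ ((Finset.range j).filter (fun i => q i = false)).card := by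
  by_cases hne : ∃ ω₀ : ℕ → Bool, Dg q ω₀ j = v
  · obtain ⟨ω₀, h0⟩ := hne
    have hsub : {ω | Dg q ω j = v} ⊆ Set.pi
        (((Finset.range j).filter (fun i => q i = false) : Finset ℕ) : Set ℕ)
        (fun i => {ω₀ i}) := by
      intro ω hω i hi
      rw [Set.mem_ofPred_eq, ← h0] at hω
      rw [Finset.mem_coe, Finset.mem_filter, Finset.mem_range] at hi
      have h1 := Dg_inj q hω i hi.1
      unfold dg at h1
      rw [hi.2] at h1
      simp only [Bool.false_eq_true, if_false] at h1
      rw [Set.mem_singleton_iff]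
      revert h1
      cases ω i <;> cases ω₀ i <;> simp
    refine (measure_mono hsub).trans ?_
    rw [Pr, Measure.infinitePi_pi _ (fun i _ => measurableSet_singleton _)]
    simp only [coin_singleton, Finset.prod_const]
    exact le_rfl
  · have : {ω | Dg q ω j = v} = ∅ := by
      ext ω
      simp only [Set.mem_ofPred_eq, Set.mem_empty_iff_false, iff_false]
      exact fun h => hne ⟨ω, h⟩
    rw [this, measure_empty]
    exact zero_le

theorem Pr_interval (j : ℕ) (x : ℝ) :
    Pr {ω | x ≤ X q ω ∧ X q ω ≤ x + 1 / 2 ^ j} ≤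
      3 * (2⁻¹ : ℝ≥0∞) ^ ((Finset.range j).filter (fun i => q i = false)).card := by
  set u : ℤ := ⌈2 ^ j * x⌉ - 1 with hu
  have hsub : {ω | x ≤ X q ω ∧ X q ω ≤ x + 1 / 2 ^ j} ⊆
      ({ω | Dg q ω j = u.toNat} ∪ {ω | Dg q ω j = (u + 1).toNat}) ∪
        {ω | Dg q ω j = (u + 2).toNat} := by
    intro ω hω
    rw [Set.mem_ofPred_eq] at hω
    have h1 := Dg_le_X q ω j
    have h2 := X_le_Dg q ω j
    have hp : (0 : ℝ) < 2 ^ j := by positivity
    have h3 : 2 ^ j * X q ω ≤ 2 ^ j * x + 1 := by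
      have := mul_le_mul_of_nonneg_left hω.2 hp.le
      rw [mul_add, mul_one_div_cancel hp.ne'] at this
      exact this
    have h4 : 2 ^ j * x ≤ 2 ^ j * X q ω := mul_le_mul_of_nonneg_left hω.1 hp.le
    have h5 : u ≤ (Dg q ω j : ℤ) := by
      rw [hu, sub_le_iff_le_add, Int.ceil_le]
      push_cast
      linarith
    have h6 : (Dg q ω j : ℤ) ≤ u + 2 := by
      have h7 : ((Dg q ω j : ℤ) : ℝ) ≤ ((⌈2 ^ j * x⌉ + 1 : ℤ) : ℝ) := by
        push_cast
        have := Int.le_ceil (2 ^ j * x)
        linarith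
      have h8 : (Dg q ω j : ℤ) ≤ ⌈2 ^ j * x⌉ + 1 := by exact_mod_cast h7
      omega
    simp only [Set.mem_union, Set.mem_ofPred_eq]
    omega
  refine (measure_mono hsub).trans ?_
  refine (measure_union_le _ _).trans ?_
  refine (add_le_add (measure_union_le _ _) le_rfl).trans ?_
  refine (add_le_add (add_le_add (Pr_Dg q j _) (Pr_Dg q j _)) (Pr_Dg q j _)).trans ?_
  ring_nf
  exact le_rfl

end Pool.Agent.U157.SUN
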