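import Pool.Agent.U157.SUN.Coin

/-!
# The characteristic function of the random number
-/

set_option autoImplicit false

open MeasureTheory Filter Topology
open scoped ENNReal Real

namespace Pool.Agent.U157.SUN

open Pool.Agent.H534R3.UDist (ee norm_ee)

theorem ee_add (s t : ℝ) : ee (s + t) = ee s * ee t := by
  rw [ee, ee, ee, ← Complex.exp_add]
  congr 1
  push_cast
  ring

theorem ee_zero : ee 0 = 1 := by simp [ee]

theorem ee_neg (t : ℝ) : ee (-t) = (starRingEnd ℂ) (ee t) := by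
  rw [ee, ee, ← Complex.exp_conj]
  congr 1
  simp only [map_mul, Complex.conj_I, Complex.conj_ofReal, map_ofNat]
  push_cast
  ring

theorem continuous_ee : Continuous ee := by
  unfold ee
  fun_prop

theorem ee_sum {ι : Type*} (s : Finset ι) (f : ι → ℝ) : ee (∑ i ∈ s, f i) = ∏ i ∈ s, ee (f i) := by
  classical
  induction s using Finset.induction_on with
  | empty => simp [ee_zero]
  | insert a s ha ih => rw [Finset.sum_insert ha, Finset.prod_insert ha, ee_add, ih]

theorem tele (t : ℝ) (a n : ℕ) :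
    (∏ i ∈ Finset.range n, (1 + ee (t * (1 / 2) ^ (a + i + 1)))) * (ee (t * (1 / 2) ^ (a + n)) - 1) =
      ee (t * (1 / 2) ^ a) - 1 := by
  induction n with
  | zero => simp
  | succ n ih =>
    rw [Finset.prod_range_succ, ← ih]
    have h : ee (t * (1 / 2) ^ (a + n)) =
        ee (t * (1 / 2) ^ (a + n + 1)) * ee (t * (1 / 2) ^ (a + n + 1)) := by
      rw [← ee_add]
      congr 1
      rw [pow_succ]
      ring
    rw [h, ← add_assoc]
    ring

theorem norm_ee_sub {s : ℝ} (h0 : 0 ≤ s) (h1 : s ≤ 1 / 2) : 4 * s ≤ ‖ee s - 1‖ := by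
  have h2 : ee s = Complex.exp (Complex.I * ((2 * π * s : ℝ) : ℂ)) := by
    rw [ee]
    congr 1
    push_cast
    ring
  rw [h2, Complex.norm_exp_I_mul_ofReal_sub_one]
  have h3 : 2 * π * s / 2 = π * s := by ring
  rw [h3]
  have hpi := Real.pi_pos
  have h4 := Real.mul_le_sin (x := π * s) (by positivity) (by nlinarith)
  have h5 : 2 / π * (π * s) = 2 * s := by
    field_simp
  rw [h5] at h4
  rw [Real.norm_eq_abs]
  refine le_trans ?_ (le_abs_self _)
  linarith

/-- The part of a digit in the sum. -/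
noncomputable def wt (q : ℕ → Bool) (i : ℕ) (c : Bool) : ℝ :=
  ((if q i then 0 else c.toNat : ℕ) : ℝ) * (1 / 2) ^ (i + 1)

theorem integral_fin (q : ℕ → Bool) (t : ℝ) (n : ℕ) :
    ∫ ω, ee (t * ((Dg q ω n : ℝ) / 2 ^ n)) ∂Pr =
      ∏ i ∈ Finset.range n, ∫ c, ee (t * wt q i c) ∂coin := by
  have h1 : ∀ ω : ℕ → Bool, ee (t * ((Dg q ω n : ℝ) / 2 ^ n)) =
      (fun y : (Π _ : Finset.range n, Bool) => ∏ i : Finset.range n, ee (t * wt q i (y i)))
        ((Finset.range n).restrict ω) := by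
    intro ω
    rw [← sum_dg, Finset.mul_sum, ee_sum]
    rw [← Finset.prod_coe_sort]
    rfl
  rw [integral_congr_ae (ae_of_all _ h1), Pr]
  have h2 := integral_restrict_infinitePi (X := fun _ : ℕ => Bool) (μ := fun _ : ℕ => coin)
    (s := Finset.range n)
    (f := fun y : (Π _ : Finset.range n, Bool) => ∏ i : Finset.range n, ee (t * wt q i (y i)))
    (measurable_of_countable _).aestronglyMeasurable
  refine h2.trans ?_
  rw [integral_fintype_prod_eq_prod (𝕜 := ℂ) (E := fun _ : Finset.range n => Bool)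
      (fun i c => ee (t * wt q i c))]
  rw [Finset.prod_coe_sort (Finset.range n) (fun i => ∫ c, ee (t * wt q i c) ∂coin)]

theorem norm_factor_le (q : ℕ → Bool) (t : ℝ) (i : ℕ) : ‖∫ c, ee (t * wt q i c) ∂coin‖ ≤ 1 := by
  refine (norm_integral_le_of_norm_le_const (C := 1) (ae_of_all _ fun c => (norm_ee _).le)).trans ?_
  simp

theorem norm_factor (q : ℕ → Bool) (t : ℝ) {i : ℕ} (hi : q i = false) :
    ‖∫ c, ee (t * wt q i c) ∂coin‖ = ‖1 + ee (t * (1 / 2) ^ (i + 1))‖ / 2 := by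
  rw [integral_coin]
  simp only [wt, hi, Bool.false_eq_true, if_false, Bool.toNat_true, Bool.toNat_false,
    Nat.cast_zero, Nat.cast_one, zero_mul, one_mul, mul_zero, ee_zero]
  rw [norm_div, add_comm]
  simp

theorem prod_bound (q : ℕ → Bool) {a b : ℕ} (hab : a ≤ b) (hq : ∀ i, a ≤ i → i < b → q i = false)
    {t : ℝ} (ht : 0 < t) (htb : t ≤ 2 ^ b / 2) {n : ℕ} (hn : b ≤ n) :
    ‖∏ i ∈ Finset.range n, ∫ c, ee (t * wt q i c) ∂coin‖ ≤ 2 ^ a / (2 * t) := by
  rw [norm_prod]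
  have hsub : Finset.Ico a b ⊆ Finset.range n := by
    intro i hi
    rw [Finset.mem_Ico] at hi
    rw [Finset.mem_range]
    omega
  have h1 : ∏ i ∈ Finset.range n, ‖∫ c, ee (t * wt q i c) ∂coin‖ ≤
      ∏ i ∈ Finset.Ico a b, ‖∫ c, ee (t * wt q i c) ∂coin‖ := by
    rw [← Finset.prod_sdiff hsub]
    have h2 : ∏ i ∈ Finset.range n \ Finset.Ico a b, ‖∫ c, ee (t * wt q i c) ∂coin‖ ≤ 1 :=
      Finset.prod_le_one (fun _ _ => norm_nonneg _) (fun i _ => norm_factor_le q t i)
    have h3 : 0 ≤ ∏ i ∈ Finset.Ico a b, ‖∫ c, ee (t * wt q i c) ∂coin‖ :=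
      Finset.prod_nonneg fun _ _ => norm_nonneg _
    nlinarith
  refine h1.trans ?_
  have h2 : ∏ i ∈ Finset.Ico a b, ‖∫ c, ee (t * wt q i c) ∂coin‖ =
      ‖∏ i ∈ Finset.range (b - a), (1 + ee (t * (1 / 2) ^ (a + i + 1)))‖ / 2 ^ (b - a) := by
    rw [Finset.prod_Ico_eq_prod_range, norm_prod]
    rw [← Finset.card_range (b - a), ← Finset.prod_const, Finset.card_range, ← Finset.prod_div_distrib]
    apply Finset.prod_congr rfl
    intro i hi
    rw [Finset.mem_range] at hi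
    exact norm_factor q t (hq _ (by omega) (by omega))
  rw [h2]
  have h3 := tele t a (b - a)
  rw [Nat.add_sub_cancel' hab] at h3
  have h4 : (0 : ℝ) ≤ t * (1 / 2) ^ b := by positivity
  have hp : (0 : ℝ) < 2 ^ b := by positivity
  have h5 : t * (1 / 2) ^ b ≤ 1 / 2 := by
    rw [one_div, inv_pow, ← div_eq_mul_inv, div_le_iff₀ hp]
    linarith
  have h6 := norm_ee_sub h4 h5
  have h7 : ‖∏ i ∈ Finset.range (b - a), (1 + ee (t * (1 / 2) ^ (a + i + 1)))‖ *
      ‖ee (t * (1 / 2) ^ b) - 1‖ ≤ 2 := by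
    rw [← norm_mul, h3]
    refine (norm_sub_le _ _).trans ?_
    rw [norm_ee, norm_one]
    norm_num
  set Q := ‖∏ i ∈ Finset.range (b - a), (1 + ee (t * (1 / 2) ^ (a + i + 1)))‖ with hQ
  have hQ0 : 0 ≤ Q := norm_nonneg _
  have h8 : Q * (4 * (t * (1 / 2) ^ b)) ≤ 2 := (mul_le_mul_of_nonneg_left h6 hQ0).trans h7
  have h9 : (2 : ℝ) ^ b = 2 ^ a * 2 ^ (b - a) := by
    rw [← pow_add, Nat.add_sub_cancel' hab]
  rw [div_le_div_iff₀ (by positivity) (by positivity), ← h9]
  rw [one_div, inv_pow] at h8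
  have h10 : Q * (2 * t) = (Q * (4 * (t * (2 ^ b)⁻¹))) * (2 ^ b / 2) := by
    field_simp
    ring
  rw [h10]
  calc (Q * (4 * (t * (2 ^ b)⁻¹))) * (2 ^ b / 2) ≤ 2 * (2 ^ b / 2) :=
        mul_le_mul_of_nonneg_right h8 (by positivity)
    _ = 2 ^ b := by ring

/-- The characteristic function at `t ≤ 2 ^ b / 2`, if there are no forced digits in `[a, b)`. -/
theorem norm_cf_le (q : ℕ → Bool) {a b : ℕ} (hab : a ≤ b)
    (hq : ∀ i, a ≤ i → i < b → q i = false) {t : ℝ} (ht : 0 < t) (htb : t ≤ 2 ^ b / 2) :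
    ‖∫ ω, ee (t * X q ω) ∂Pr‖ ≤ 2 ^ a / (2 * t) := by
  have hlim : Tendsto (fun n : ℕ => ∫ ω, ee (t * ((Dg q ω n : ℝ) / 2 ^ n)) ∂Pr) atTop
      (𝓝 (∫ ω, ee (t * X q ω) ∂Pr)) := by
    apply tendsto_integral_of_dominated_convergence (fun _ => (1 : ℝ))
    · intro n
      apply Measurable.aestronglyMeasurable
      apply continuous_ee.measurable.comp
      apply Measurable.const_mul
      exact ((measurable_of_countable (fun m : ℕ => (m : ℝ))).comp (measurable_Dg q n)).div_const _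
    · exact integrable_const _
    · intro n
      exact ae_of_all _ fun ω => (norm_ee _).le
    · refine ae_of_all _ fun ω => ?_
      exact (continuous_ee.tendsto _).comp ((tendsto_Dg q ω).const_mul t)
  apply le_of_tendsto hlim.norm
  filter_upwards [eventually_ge_atTop b] with n hn
  rw [integral_fin]
  exact prod_bound q hab hq ht htb hn

end Pool.Agent.U157.SUN
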