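import Pool.Agent.U157.SUN.Four

/-!
# The random number is absolutely normal almost surely
-/

set_option autoImplicit false

open MeasureTheory Filter Topology
open scoped ENNReal Real

namespace Pool.Agent.U157.SUN

open Pool.Agent.H534R3.UDist (ee norm_ee Weyl UD ud_of_weyl)

/-- The positions of the forced digits. -/
structure Pos (q : ℕ → Bool) (z : ℕ → ℕ) : Prop where
  mono : StrictMono z
  zero : z 0 = 0
  sq : ∀ k, k ^ 2 ≤ z k
  iff : ∀ i, q i = true ↔ ∃ k, z k = i

theorem Pos.gap {q : ℕ → Bool} {z : ℕ → ℕ} (h : Pos q z) {k i : ℕ} (h1 : z k < i)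
    (h2 : i < z (k + 1)) : q i = false := by
  by_contra hcon
  rw [Bool.not_eq_false, h.iff] at hcon
  obtain ⟨l, hl⟩ := hcon
  rw [← hl] at h1 h2
  have h3 := h.mono.lt_iff_lt.mp h1
  have h4 := h.mono.lt_iff_lt.mp h2
  omega

/-- A geometric sum which starts when the terms are at most `2`. -/
theorem geo (T h b : ℝ) (hT : 0 < T) (hh : 0 < h) (hb : 2 ≤ b) (N : ℕ) :
    ∑ n ∈ Finset.range N, (if T < 2 * (h * b ^ n) then T / (h * b ^ n) else 0) ≤ 4 := by
  have hb0 : 0 < b := by linarith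
  have key : ∀ N : ℕ, ∑ n ∈ Finset.range N, (if T < 2 * (h * b ^ n) then T / (h * b ^ n) else 0) ≤
      4 - 2 * min 2 (T / (h * b ^ N)) := by
    intro N
    induction N with
    | zero =>
      rw [Finset.sum_range_zero]
      have := min_le_left 2 (T / (h * b ^ 0))
      linarith
    | succ N ih =>
      rw [Finset.sum_range_succ]
      have hp : 0 < h * b ^ N := by positivity
      have hhalf : T / (h * b ^ (N + 1)) ≤ (T / (h * b ^ N)) / 2 := by
        rw [div_div, div_le_div_iff₀ (by positivity) (by positivity), pow_succ]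
        have : 0 < T * (h * b ^ N) := by positivity
        nlinarith
      split_ifs with hc
      · have h1 : T / (h * b ^ N) < 2 := by
          rw [div_lt_iff₀ hp]
          exact hc
        rw [min_eq_right h1.le] at ih
        have h2 := min_le_right 2 (T / (h * b ^ (N + 1)))
        linarith
      · push Not at hc
        have h1 : 2 ≤ T / (h * b ^ N) := by
          rw [le_div_iff₀ hp]
          exact hc
        rw [min_eq_left h1] at ih
        have h2 := min_le_left 2 (T / (h * b ^ (N + 1)))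
        linarith
  refine (key N).trans ?_
  have : 0 ≤ min 2 (T / (h * b ^ N)) := le_min (by norm_num) (by positivity)
  linarith

/-- The bound of the correlations. -/
noncomputable def GG (z : ℕ → ℕ) (h b K n : ℕ) : ℝ :=
  ∑ k ∈ Finset.range K,
    (if (2 : ℝ) ^ (z k) < 2 * (h * b ^ n) then (2 : ℝ) ^ (z k) * b / (h * b ^ n) else 0)

theorem GG_nonneg (z : ℕ → ℕ) (h b K n : ℕ) : 0 ≤ GG z h b K n := by
  apply Finset.sum_nonneg
  intro k _
  split_ifs <;> positivity

theorem sum_GG (z : ℕ → ℕ) {h b : ℕ} (hh : 1 ≤ h) (hb : 2 ≤ b) (K N : ℕ) :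
    ∑ n ∈ Finset.range N, GG z h b K n ≤ K * (4 * b) := by
  unfold GG
  rw [Finset.sum_comm]
  have h1 : ∀ k ∈ Finset.range K, ∑ n ∈ Finset.range N,
      (if (2 : ℝ) ^ (z k) < 2 * (h * b ^ n) then (2 : ℝ) ^ (z k) * b / (h * b ^ n) else 0) ≤
        4 * b := by
    intro k _
    have h2 := geo ((2 : ℝ) ^ (z k)) h b (by positivity) (by exact_mod_cast hh)
      (by exact_mod_cast hb) N
    have h3 : ∑ n ∈ Finset.range N,
      (if (2 : ℝ) ^ (z k) < 2 * ((h : ℝ) * b ^ n) then (2 : ℝ) ^ (z k) * b / (h * b ^ n) else 0) =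
        (∑ n ∈ Finset.range N,
      (if (2 : ℝ) ^ (z k) < 2 * ((h : ℝ) * b ^ n) then (2 : ℝ) ^ (z k) / (h * b ^ n) else 0)) * b := by
      rw [Finset.sum_mul]
      apply Finset.sum_congr rfl
      intro n _
      split_ifs
      · ring
      · ring
    rw [h3]
    exact mul_le_mul_of_nonneg_right h2 (by positivity)
  refine (Finset.sum_le_sum h1).trans ?_
  rw [Finset.sum_const, Finset.card_range, nsmul_eq_mul]

/-- The number of relevant blocks. -/
def KK (h b N : ℕ) : ℕ := Nat.sqrt (1 + h + b * N) + 1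

variable {q : ℕ → Bool} {z : ℕ → ℕ} (hP : Pos q z)

include hP in
theorem corr {h b : ℕ} (hh : 1 ≤ h) (hb : 2 ≤ b) {m n N : ℕ} (hmn : m < n) (hn : n < N) :
    ‖∫ ω, ee (((h : ℝ) * b ^ n - h * b ^ m) * X q ω) ∂Pr‖ ≤ GG z h b (KK h b N) n := by
  have hb0 : (2 : ℝ) ≤ b := by exact_mod_cast hb
  have hh0 : (1 : ℝ) ≤ h := by exact_mod_cast hh
  -- the block
  have hex : ∃ k, 2 * ((h : ℝ) * b ^ n) ≤ 2 ^ (z (k + 1)) := by
    obtain ⟨k, hk⟩ := pow_unbounded_of_one_lt (2 * ((h : ℝ) * b ^ n)) (one_lt_two)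
    refine ⟨k, hk.le.trans (pow_le_pow_right₀ one_le_two ?_)⟩
    have := hP.mono.id_le (k + 1)
    simp only [id] at this
    omega
  classical
  obtain ⟨k, hk1, hk2⟩ : ∃ k, 2 * ((h : ℝ) * b ^ n) ≤ 2 ^ (z (k + 1)) ∧
      (2 : ℝ) ^ (z k) < 2 * ((h : ℝ) * b ^ n) := by
    refine ⟨Nat.find hex, Nat.find_spec hex, ?_⟩
    rcases Nat.eq_zero_or_pos (Nat.find hex) with h0 | h0
    · rw [h0, hP.zero, pow_zero]
      have : (1 : ℝ) ≤ b ^ n := one_le_pow₀ (by linarith)
      nlinarith
    · have h1 := Nat.find_min hex (m := Nat.find hex - 1) (by omega)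
      push Not at h1
      rwa [Nat.sub_add_cancel h0] at h1
  -- the size of `t`
  have hbm : (b : ℝ) * b ^ m ≤ b ^ n := by
    rw [← pow_succ']
    exact pow_le_pow_right₀ (by linarith) hmn
  have hbm0 : (0 : ℝ) < b ^ m := by positivity
  have hbn0 : (0 : ℝ) < b ^ n := by positivity
  set t : ℝ := (h : ℝ) * b ^ n - h * b ^ m with ht
  have ht1 : (h : ℝ) * b ^ n ≤ t * b := by
    rw [ht]
    have h1 : (b : ℝ) ^ n ≤ (b ^ n - b ^ m) * b := by nlinarith
    have h2 := mul_le_mul_of_nonneg_left h1 (by linarith : (0 : ℝ) ≤ h)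
    linarith
  have ht0 : 0 < t := by
    by_contra hcon
    push Not at hcon
    have : t * b ≤ 0 := mul_nonpos_of_nonpos_of_nonneg hcon (by linarith)
    have h3 : 0 < (h : ℝ) * b ^ n := by positivity
    linarith
  have ht2 : t ≤ 2 ^ (z (k + 1)) / 2 := by
    have : 0 ≤ (h : ℝ) * b ^ m := by positivity
    rw [ht]
    linarith
  have hlt := hP.mono (Nat.lt_succ_self k)
  have hcf := norm_cf_le q (a := z k + 1) (b := z (k + 1)) hlt
    (fun i h1 h2 => hP.gap (by omega) h2) ht0 ht2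
  refine hcf.trans ?_
  have h5 : (2 : ℝ) ^ (z k + 1) / (2 * t) ≤ (2 : ℝ) ^ (z k) * b / (h * b ^ n) := by
    rw [div_le_div_iff₀ (by positivity) (by positivity), pow_succ]
    have : (0 : ℝ) < 2 ^ (z k) := by positivity
    nlinarith
  refine h5.trans ?_
  have hkK : k ∈ Finset.range (KK h b N) := by
    rw [Finset.mem_range, KK, Nat.lt_succ_iff, Nat.le_sqrt']
    have h6 : (2 : ℕ) ^ (z k) < 2 * (h * b ^ n) := by exact_mod_cast hk2
    have h7 : 2 * (h * b ^ n) ≤ 2 ^ (1 + h + b * N) := by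
      rw [pow_add, pow_add, pow_one, mul_assoc]
      apply Nat.mul_le_mul_left
      apply Nat.mul_le_mul (Nat.lt_two_pow_self).le
      rw [pow_mul]
      calc b ^ n ≤ b ^ N := Nat.pow_le_pow_right (by omega) hn.le
        _ ≤ (2 ^ b) ^ N := Nat.pow_le_pow_left (Nat.lt_two_pow_self).le N
    have h8 := (Nat.pow_lt_pow_iff_right (by norm_num)).mp (h6.trans_le h7)
    exact (hP.sq k).trans h8.le
  unfold GG
  have h9 : (if (2 : ℝ) ^ (z k) < 2 * (h * b ^ n) then (2 : ℝ) ^ (z k) * b / (h * b ^ n) else 0) =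
      (2 : ℝ) ^ (z k) * b / (h * b ^ n) := if_pos hk2
  rw [← h9]
  exact Finset.single_le_sum (f := fun k => if (2 : ℝ) ^ (z k) < 2 * (h * b ^ n) then
    (2 : ℝ) ^ (z k) * b / (h * b ^ n) else 0) (fun k _ => by split_ifs <;> positivity) hkK

/-- The exponential sum. -/
noncomputable def SS (q : ℕ → Bool) (h b N : ℕ) (ω : ℕ → Bool) : ℂ :=
  ∑ n ∈ Finset.range N, ee ((h : ℝ) * (b ^ n * X q ω))

theorem norm_SS_le (q : ℕ → Bool) (h b N : ℕ) (ω : ℕ → Bool) : ‖SS q h b N ω‖ ≤ N := by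
  refine (norm_sum_le _ _).trans ?_
  simp [norm_ee]

theorem measurable_term (q : ℕ → Bool) (c : ℝ) : Measurable fun ω : ℕ → Bool => ee (c * X q ω) :=
  continuous_ee.measurable.comp ((measurable_X q).const_mul c)

theorem measurable_SS (q : ℕ → Bool) (h b N : ℕ) : Measurable (SS q h b N) := by
  unfold SS
  apply Finset.measurable_sum
  intro n _
  have := measurable_term q ((h : ℝ) * b ^ n)
  simpa only [mul_assoc] using this

theorem integrable_term (q : ℕ → Bool) (c : ℝ) : Integrable (fun ω => ee (c * X q ω)) Pr :=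
  Integrable.of_bound (measurable_term q c).aestronglyMeasurable 1
    (ae_of_all _ fun _ => (norm_ee _).le)

include hP in
theorem second_moment {h b : ℕ} (hh : 1 ≤ h) (hb : 2 ≤ b) (N : ℕ) :
    ∫ ω, ‖SS q h b N ω‖ ^ 2 ∂Pr ≤ N + 2 * N * (KK h b N * (4 * b)) := by
  have h1 : ((∫ ω, ‖SS q h b N ω‖ ^ 2 ∂Pr : ℝ) : ℂ) =
      ∑ n ∈ Finset.range N, ∑ m ∈ Finset.range N,
        ∫ ω, ee (((h : ℝ) * b ^ n - h * b ^ m) * X q ω) ∂Pr := by
    rw [← integral_complex_ofReal]
    have h2 : ∀ ω, ((‖SS q h b N ω‖ ^ 2 : ℝ) : ℂ) =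
        ∑ n ∈ Finset.range N, ∑ m ∈ Finset.range N,
          ee (((h : ℝ) * b ^ n - h * b ^ m) * X q ω) := by
      intro ω
      push_cast
      rw [← Complex.mul_conj', SS, map_sum, Finset.sum_mul_sum]
      apply Finset.sum_congr rfl
      intro n _
      apply Finset.sum_congr rfl
      intro m _
      rw [← ee_neg, ← ee_add]
      congr 1
      ring
    rw [integral_congr_ae (ae_of_all _ h2), integral_finsetSum]
    · apply Finset.sum_congr rfl
      intro n _
      rw [integral_finsetSum]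
      intro m _
      exact integrable_term q _
    · intro n _
      apply integrable_finsetSum
      intro m _
      exact integrable_term q _
  have h3 : ∫ ω, ‖SS q h b N ω‖ ^ 2 ∂Pr ≤ ∑ n ∈ Finset.range N, ∑ m ∈ Finset.range N,
      ((if n = m then (1 : ℝ) else 0) + GG z h b (KK h b N) n + GG z h b (KK h b N) m) := by
    have h4 : ∫ ω, ‖SS q h b N ω‖ ^ 2 ∂Pr = ‖((∫ ω, ‖SS q h b N ω‖ ^ 2 ∂Pr : ℝ) : ℂ)‖ := by
      rw [Complex.norm_real, Real.norm_eq_abs, abs_of_nonneg]
      exact integral_nonneg fun _ => by positivity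
    rw [h4, h1]
    refine (norm_sum_le _ _).trans (Finset.sum_le_sum fun n hn => ?_)
    refine (norm_sum_le _ _).trans (Finset.sum_le_sum fun m hm => ?_)
    rw [Finset.mem_range] at hn hm
    have g1 := GG_nonneg z h b (KK h b N) n
    have g2 := GG_nonneg z h b (KK h b N) m
    rcases lt_trichotomy m n with h5 | h5 | h5
    · rw [if_neg (by omega)]
      have := corr hP hh hb h5 hn
      linarith
    · subst h5
      rw [if_pos rfl]
      have : ‖∫ ω, ee (((h : ℝ) * b ^ m - h * b ^ m) * X q ω) ∂Pr‖ ≤ 1 := by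
        simp [ee_zero]
      linarith
    · rw [if_neg (by omega)]
      have h6 := corr hP hh hb h5 hm
      have h7 : ∫ ω, ee (((h : ℝ) * b ^ n - h * b ^ m) * X q ω) ∂Pr =
          (starRingEnd ℂ) (∫ ω, ee (((h : ℝ) * b ^ m - h * b ^ n) * X q ω) ∂Pr) := by
        rw [← integral_conj]
        apply integral_congr_ae
        refine ae_of_all _ fun ω => ?_
        simp only
        rw [← ee_neg]
        congr 1
        ring
      rw [h7, RCLike.norm_conj]
      linarith
  refine h3.trans ?_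
  have h8 : ∑ n ∈ Finset.range N, ∑ m ∈ Finset.range N,
      ((if n = m then (1 : ℝ) else 0) + GG z h b (KK h b N) n + GG z h b (KK h b N) m) =
      N + 2 * N * ∑ n ∈ Finset.range N, GG z h b (KK h b N) n := by
    have h9 : ∀ n ∈ Finset.range N, ∑ m ∈ Finset.range N,
      ((if n = m then (1 : ℝ) else 0) + GG z h b (KK h b N) n + GG z h b (KK h b N) m) =
        1 + N * GG z h b (KK h b N) n + ∑ m ∈ Finset.range N, GG z h b (KK h b N) m := by
      intro n hn
      rw [Finset.sum_add_distrib, Finset.sum_add_distrib, Finset.sum_ite_eq, if_pos hn,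
        Finset.sum_const, Finset.card_range, nsmul_eq_mul]
    rw [Finset.sum_congr rfl h9, Finset.sum_add_distrib, Finset.sum_add_distrib, Finset.sum_const,
      Finset.sum_const, Finset.card_range, nsmul_eq_mul, nsmul_eq_mul, ← Finset.mul_sum]
    ring
  rw [h8]
  have h10 := sum_GG z hh hb (KK h b N) N
  have h11 : (0 : ℝ) ≤ 2 * N := by positivity
  have := mul_le_mul_of_nonneg_left h10 h11
  linarith

theorem KK_le (h b j : ℕ) (hj : 1 ≤ j) : KK h b (j ^ 4) ≤ (2 + h + b) * j ^ 2 := by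
  have h1 : Nat.sqrt (1 + h + b * j ^ 4) ≤ (1 + h + b) * j ^ 2 := by
    rw [← Nat.lt_succ_iff, Nat.sqrt_lt']
    have h2 : 1 ≤ j ^ 4 := Nat.one_le_pow _ _ hj
    have h3 : 1 + h + b * j ^ 4 ≤ (1 + h + b) * j ^ 4 := by nlinarith
    have h4 : (1 + h + b) * j ^ 4 ≤ ((1 + h + b) * j ^ 2) ^ 2 := by
      have : ((1 + h + b) * j ^ 2) ^ 2 = (1 + h + b) * ((1 + h + b) * j ^ 4) := by ring
      rw [this]
      exact Nat.le_mul_of_pos_left _ (by omega)
    have h5 : ((1 + h + b) * j ^ 2) ^ 2 < ((1 + h + b) * j ^ 2).succ ^ 2 :=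
      Nat.pow_lt_pow_left (Nat.lt_succ_self _) (by norm_num)
    omega
  unfold KK
  have : 1 ≤ j ^ 2 := Nat.one_le_pow _ _ hj
  nlinarith

end Pool.Agent.U157.SUN
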